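import Pool.Agent.W682.TW.Stm

/-! Project TW (helper883): the function `g4` along rank-one lines. -/

set_option autoImplicit false

open scoped BigOperators

namespace Pool.Agent.W883.TW.RC4

open Pool.Agent.W682.TW

lemma quad_convex (q l c : ℝ) (hq : 0 ≤ q) :
    ConvexOn ℝ Set.univ (fun t : ℝ => q * t ^ 2 + l * t + c) := by
  refine ⟨convex_univ, ?_⟩
  intro x _ y _ a b ha hb hab
  simp only [smul_eq_mul]
  have hb' : b = 1 - a := by linarith
  subst hb'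
  have h1 : a * (q * x ^ 2 + l * x + c) + (1 - a) * (q * y ^ 2 + l * y + c) -
      (q * (a * x + (1 - a) * y) ^ 2 + l * (a * x + (1 - a) * y) + c) =
      q * (a * (1 - a)) * (x - y) ^ 2 := by ring
  have h2 : 0 ≤ q * (a * (1 - a)) * (x - y) ^ 2 := by positivity
  linarith

lemma sumsq {ι : Type*} [Fintype ι] (a x : ι → ℝ) (t : ℝ) :
    ∑ i, (a i + t * x i) ^ 2 = ∑ i, a i ^ 2 + 2 * t * ∑ i, a i * x i + t ^ 2 * ∑ i, x i ^ 2 := by
  rw [Finset.mul_sum, Finset.mul_sum, ← Finset.sum_add_distrib, ← Finset.sum_add_distrib]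
  refine Finset.sum_congr rfl fun i _ => ?_
  ring

lemma key {ι : Type*} [Fintype ι] [DecidableEq ι] (G O f h : ι → ℝ) (i0 : ι) (C0 Mc n2 k : ℝ)
    (hC0 : 0 ≤ C0) (hn2 : 0 ≤ n2) (h2 : 2 * n2 ≤ Mc) (hG : ∀ i, i ≠ i0 → |G i| ≤ C0 * |O i|)
    (hf : ∀ i, |f i| ≤ |G i|) (hh : ∀ i, |h i| ≤ |G i|)
    (h0 : h i0 = 0 ∨ (h i0 = G i0 ∧ f i0 = G i0))
    (hk : (Mc + n2) * C0 ^ 2 * ((Fintype.card ι : ℝ) + 1) ≤ k) :
    0 ≤ Mc * (∑ i, f i) ^ 2 - n2 * ∑ i, h i ^ 2 + k * ∑ i, O i ^ 2 := by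
  have hMc : 0 ≤ Mc := by linarith
  set S : ℝ := ∑ i, O i ^ 2 with hS
  have hS0 : 0 ≤ S := Finset.sum_nonneg fun i _ => sq_nonneg _
  have hN0 : (0 : ℝ) ≤ Fintype.card ι := Nat.cast_nonneg _
  have hsq : ∀ i, i ≠ i0 → h i ^ 2 ≤ C0 ^ 2 * O i ^ 2 := by
    intro i hi
    have h3 : |h i| ≤ C0 * |O i| := (hh i).trans (hG i hi)
    have h4 := pow_le_pow_left₀ (abs_nonneg _) h3 2
    rw [sq_abs, mul_pow, sq_abs] at h4
    exact h4
  have hrest : ∑ i ∈ Finset.univ.erase i0, h i ^ 2 ≤ C0 ^ 2 * S := by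
    calc ∑ i ∈ Finset.univ.erase i0, h i ^ 2
        ≤ ∑ i ∈ Finset.univ.erase i0, C0 ^ 2 * O i ^ 2 :=
          Finset.sum_le_sum fun i hi => hsq i (Finset.ne_of_mem_erase hi)
      _ ≤ ∑ i, C0 ^ 2 * O i ^ 2 :=
          Finset.sum_le_sum_of_subset_of_nonneg (Finset.erase_subset _ _)
            (fun _ _ _ => by positivity)
      _ = C0 ^ 2 * S := by rw [hS, Finset.mul_sum]
  have hsplit : ∑ i, h i ^ 2 = h i0 ^ 2 + ∑ i ∈ Finset.univ.erase i0, h i ^ 2 :=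
    (Finset.add_sum_erase _ _ (Finset.mem_univ i0)).symm
  have hkS : (Mc + n2) * C0 ^ 2 * ((Fintype.card ι : ℝ) + 1) * S ≤ k * S :=
    mul_le_mul_of_nonneg_right hk hS0
  have e1 : (Mc + n2) * C0 ^ 2 * ((Fintype.card ι : ℝ) + 1) * S =
      Mc * (C0 ^ 2 * Fintype.card ι * S) + n2 * (C0 ^ 2 * S) +
      (Mc * (C0 ^ 2 * S) + n2 * (C0 ^ 2 * Fintype.card ι * S)) := by ring
  have p1 : 0 ≤ Mc * (C0 ^ 2 * Fintype.card ι * S) := by positivity
  have p2 : 0 ≤ Mc * (C0 ^ 2 * S) := by positivity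
  have p3 : 0 ≤ n2 * (C0 ^ 2 * Fintype.card ι * S) := by positivity
  rw [hsplit, mul_add]
  have hrest' := mul_le_mul_of_nonneg_left hrest hn2
  rcases h0 with h0 | ⟨h0, hf0⟩
  · rw [h0]
    have p4 : 0 ≤ Mc * (∑ i, f i) ^ 2 := by positivity
    have p5 : n2 * (0 : ℝ) ^ 2 = 0 := by ring
    linarith
  · set r : ℝ := ∑ i ∈ Finset.univ.erase i0, f i with hr
    have hT : ∑ i, f i = G i0 + r := by
      rw [hr, ← hf0]
      exact (Finset.add_sum_erase _ _ (Finset.mem_univ i0)).symm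
    have hr1 : |r| ≤ ∑ i, C0 * |O i| := by
      rw [hr]
      refine (Finset.abs_sum_le_sum_abs _ _).trans ?_
      calc ∑ i ∈ Finset.univ.erase i0, |f i|
          ≤ ∑ i ∈ Finset.univ.erase i0, C0 * |O i| :=
            Finset.sum_le_sum fun i hi => (hf i).trans (hG i (Finset.ne_of_mem_erase hi))
        _ ≤ ∑ i, C0 * |O i| :=
            Finset.sum_le_sum_of_subset_of_nonneg (Finset.erase_subset _ _)
              (fun _ _ _ => by positivity)
    have hr2 : r ^ 2 ≤ C0 ^ 2 * Fintype.card ι * S := by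
      have h3 := pow_le_pow_left₀ (abs_nonneg _) hr1 2
      rw [sq_abs] at h3
      have h4 : (∑ i, C0 * |O i|) ^ 2 ≤ (Finset.univ : Finset ι).card * ∑ i, (C0 * |O i|) ^ 2 :=
        sq_sum_le_card_mul_sum_sq
      have h5 : ∑ i, (C0 * |O i|) ^ 2 = C0 ^ 2 * S := by
        rw [hS, Finset.mul_sum]
        refine Finset.sum_congr rfl fun i _ => ?_
        rw [mul_pow, sq_abs]
      rw [h5, Finset.card_univ] at h4
      calc r ^ 2 ≤ _ := h3
        _ ≤ _ := h4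
        _ = _ := by ring
    have hT2 : G i0 ^ 2 / 2 - r ^ 2 ≤ (∑ i, f i) ^ 2 := by
      rw [hT]
      nlinarith [sq_nonneg (G i0 + 2 * r)]
    have hT3 := mul_le_mul_of_nonneg_left hT2 hMc
    have hr3 := mul_le_mul_of_nonneg_left hr2 hMc
    have hg : 2 * n2 * G i0 ^ 2 ≤ Mc * G i0 ^ 2 := mul_le_mul_of_nonneg_right h2 (sq_nonneg _)
    rw [h0]
    have e2 : Mc * (G i0 ^ 2 / 2 - r ^ 2) = Mc * G i0 ^ 2 / 2 - Mc * r ^ 2 := by ring
    rw [e2] at hT3
    linarith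

/-- the coordinates in `θ` -/
def fz {n : ℕ} (G : Ix n → ℝ) : Ix n → ℝ
  | .inl z => G (.inl z)
  | .inr (.inl i) => G (.inr (.inl i))
  | .inr (.inr _) => 0

/-- the coordinates in `a` -/
def fa {n : ℕ} (G : Ix n → ℝ) : Ix n → ℝ
  | .inl _ => 0
  | .inr (.inl i) => G (.inr (.inl i))
  | .inr (.inr _) => 0

/-- `S_RC4` -/
theorem main (hL : S_LIN) (hD : S_DIR) : S_RC4 := by
  intro n m e Mc hMc
  classical
  obtain ⟨C0, hC0, hdir⟩ := hD n
  obtain ⟨hst, hOc, _, hval, _, _⟩ := hL n m e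
  refine ⟨(Mc + (n : ℝ) ^ 2) * C0 ^ 2 * ((Fintype.card (Ix n) : ℝ) + 1), ?_⟩
  intro k hk F v β
  set X : Mt m := Matrix.vecMulVec v β with hX
  obtain ⟨i0, hi0⟩ := hdir v
  have hG : ∀ ι, ι ≠ i0 → |Gc e X ι| ≤ C0 * |Oc e X ι| := by
    intro ι hι
    obtain ⟨h1, h2⟩ := hval v β ι
    rw [hX, h1, h2, abs_mul, abs_mul, abs_div, abs_div]
    have h3 := hi0 ι hι
    have h4 : |ip (kr n ι) v| / |ip (kr n ι) (kr n ι)| ≤
        C0 * |dt (kr n ι) v| / |ip (kr n ι) (kr n ι)| :=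
      div_le_div_of_nonneg_right h3 (abs_nonneg _)
    calc |β (e ι)| * (|ip (kr n ι) v| / |ip (kr n ι) (kr n ι)|)
        ≤ |β (e ι)| * (C0 * |dt (kr n ι) v| / |ip (kr n ι) (kr n ι)|) :=
          mul_le_mul_of_nonneg_left h4 (abs_nonneg _)
      _ = C0 * (|β (e ι)| * (|dt (kr n ι) v| / |ip (kr n ι) (kr n ι)|)) := by ring
  have hkey := key (Gc e X) (Oc e X) (fz (Gc e X)) (fa (Gc e X)) i0 C0 Mc ((n : ℝ) ^ 2) k hC0
    (by positivity) hMc hG
    (by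
      intro ι
      rcases ι with z | i | j
      · exact le_rfl
      · exact le_rfl
      · simp [fz])
    (by
      intro ι
      rcases ι with z | i | j
      · simp [fa]
      · exact le_rfl
      · simp [fa])
    (by
      rcases i0 with z | i | j
      · left; rfl
      · right; exact ⟨rfl, rfl⟩
      · left; rfl) hk
  have hsumz : ∑ ι, fz (Gc e X) ι = (st e X).1 := by
    rw [Fintype.sum_sum_type, Fintype.sum_sum_type (f := fun a₂ => fz (Gc e X) (Sum.inr a₂))]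
    simp only [fz, Finset.sum_const_zero, add_zero]
    rfl
  have hsuma : ∑ ι, fa (Gc e X) ι ^ 2 = Pool.Agent.W682.TW.sq (st e X).2.1 := by
    rw [Fintype.sum_sum_type, Fintype.sum_sum_type (f := fun a₂ => fa (Gc e X) (Sum.inr a₂) ^ 2)]
    simp only [fa, ne_eq, OfNat.ofNat_ne_zero, not_false_eq_true, zero_pow, Finset.sum_const_zero,
      add_zero, zero_add]
    rfl
  rw [hsumz, hsuma] at hkey
  have hxb : 0 ≤ Pool.Agent.W682.TW.sq (st e X).2.2 := Finset.sum_nonneg fun i _ => sq_nonneg _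
  set q : ℝ := Mc * (st e X).1 ^ 2 - (n : ℝ) ^ 2 * Pool.Agent.W682.TW.sq (st e X).2.1 +
    23 / 4 * Pool.Agent.W682.TW.sq (st e X).2.2 +
    k * ∑ ι, Oc e X ι ^ 2 with hq
  have hq0 : 0 ≤ q := by
    rw [hq]
    linarith
  have hfun : (fun t : ℝ => g4 n Mc (st e (F + t • X)) + k * SO e (F + t • X)) =
      fun t : ℝ => q * t ^ 2 + (Mc * (2 * (st e F).1 * (st e X).1 - (st e X).1) -
        (n : ℝ) ^ 2 * (2 * ∑ i, (st e F).2.1 i * (st e X).2.1 i) +
        23 / 4 * (2 * ∑ i, (st e F).2.2 i * (st e X).2.2 i) +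
        k * (2 * ∑ ι, Oc e F ι * Oc e X ι)) * t + (g4 n Mc (st e F) + k * SO e F) := by
    funext t
    rw [hst]
    unfold SO g4 Pool.Agent.W682.TW.sq
    simp only [hOc]
    have e1 : (st e F + t • st e X).1 = (st e F).1 + t * (st e X).1 := rfl
    have e2 : ∀ i, (st e F + t • st e X).2.1 i = (st e F).2.1 i + t * (st e X).2.1 i :=
      fun _ => rfl
    have e3 : ∀ i, (st e F + t • st e X).2.2 i = (st e F).2.2 i + t * (st e X).2.2 i :=
      fun _ => rfl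
    simp only [e1, e2, e3, sumsq]
    rw [hq]
    unfold Pool.Agent.W682.TW.sq
    ring
  rw [hfun]
  exact quad_convex _ _ _ hq0

end Pool.Agent.W883.TW.RC4
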